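import Pool.Agent.Lib.MP_d27f8c_ag.Semi

/-!
# The `p`-exponent of the unipotent Brauer quotient of a non-supersingular abelian variety

Let `k` be an algebraically closed field of characteristic `p > 0` and `A` an abelian variety
over `k` of dimension `g ≥ 2` which is not supersingular.  We prove `p ^ (g - 2) U_A = 0`.

The abelian variety enters only through its Dieudonné module `M = H¹_cris(A / W)`, the
Frobenius `F` and the Verschiebung `V` of `M`, and the alternating form `ψ` defined by a
polarisation; the structure `IsPolarisedDieudonneModule` records what is used.  The F-crystal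
`L = H²_cris(A / W)` is the exterior square of `M`.
-/

universe u v

namespace Pool.Agent.Results.MP_d27f8c_ag.PExponent

/-! ## The exterior square -/

section Generic

/-- The exterior square of the `R`-module `M` (Mathlib's `⋀[R]^2 M`). -/
def ExtSq (R : Type u) (M : Type v) [CommRing R] [AddCommGroup M] [Module R M] : Type (max u v) :=
  ⋀[R]^2 M

variable {R : Type u} {M : Type v} [CommRing R] [AddCommGroup M] [Module R M]

noncomputable instance : AddCommGroup (ExtSq R M) := (⋀[R]^2 M).addCommGroup

noncomputable instance : Module R (ExtSq R M) := (⋀[R]^2 M).module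

/-- `x ∧ y` in the exterior square. -/
noncomputable def wdg (x y : M) : ExtSq R M := exteriorPower.ιMulti R 2 ![x, y]

/-- `f` is additive and `f (a x) = τ(a) f(x)`. -/
structure IsSemilinear (τ : R → R) (f : M → M) : Prop where
  map_add : ∀ x y, f (x + y) = f x + f y
  map_smul : ∀ a x, f (a • x) = τ a • f x

/-- `ψ` is an alternating bilinear form with trivial kernel. -/
structure IsAltForm (ψ : M → M → R) : Prop where
  add_left : ∀ x x' y, ψ (x + x') y = ψ x y + ψ x' y
  smul_left : ∀ a x y, ψ (a • x) y = a * ψ x y
  add_right : ∀ x y y', ψ x (y + y') = ψ x y + ψ x y'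
  smul_right : ∀ a x y, ψ x (a • y) = a * ψ x y
  self_eq_zero : ∀ x, ψ x x = 0
  nondegenerate : ∀ x, (∀ y, ψ x y = 0) → x = 0

/-- The image of `F / p - 1 : F¹_N(M) → M`, where `F¹_N(M) = {x ∈ M : p ∣ F x}`: the subgroup
generated by (for additive `F`: consisting of) the elements `y - x` with `F x = p y`. -/
def nygaardImage (R : Type u) {M : Type v} [CommRing R] [AddCommGroup M] [Module R M] (p : ℕ)
    (F : M → M) : AddSubgroup M :=
  AddSubgroup.closure {z | ∃ x y : M, F x = (p : R) • y ∧ z = y - x}

/-- The group `U(k)` of an F-crystal `(M, F)`: the cokernel of `F / p - 1 : F¹_N(M) → M`. -/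
abbrev UPoints (R : Type u) {M : Type v} [CommRing R] [AddCommGroup M] [Module R M] (p : ℕ)
    (F : M → M) : Type v := M ⧸ nygaardImage R p F

/-- The integer `N` kills the group `U(k)` of the F-crystal `(M, F)`. -/
def KillsU (R : Type u) {M : Type v} [CommRing R] [AddCommGroup M] [Module R M] (p : ℕ)
    (F : M → M) (N : ℕ) : Prop := ∀ u : UPoints R p F, N • u = 0

/-- `FL` is the exterior square of the `τ`-linear map `F`: it is `τ`-linear and
`FL (x ∧ y) = F x ∧ F y`. -/
structure IsWedgeSquare (τ : R → R) (F : M → M) (FL : ExtSq R M → ExtSq R M) : Prop where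
  semilinear : IsSemilinear τ FL
  map_wdg : ∀ x y : M, FL (wdg x y) = wdg (F x) (F y)

end Generic

/-! ## Dieudonné modules -/

section Statement

variable {p : ℕ} [Fact p.Prime] {k : Type u} [Field k]

/-- The Frobenius lift `σ` of the Witt vectors `W = W(k)`. -/
noncomputable def frob (a : WittVector p k) : WittVector p k := WittVector.frobenius a

variable {M : Type v} [AddCommGroup M] [Module (WittVector p k) M]

/-- The structure on `M = H¹_cris(A / W)`, for an abelian variety `A` of dimension `g` with a
polarisation: `M` is free of rank `2 g` over `W`, `F` is `σ`-linear, `V` is `σ⁻¹`-linear,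
`F V = V F = p`, and `ψ` is an alternating `W`-bilinear form with trivial kernel such that
`ψ(F x, y) = σ(ψ(x, V y))`. -/
structure IsPolarisedDieudonneModule (g : ℕ) (F V : M → M) (ψ : M → M → WittVector p k) :
    Prop where
  free : Module.Free (WittVector p k) M
  finite : Module.Finite (WittVector p k) M
  finrank_eq : Module.finrank (WittVector p k) M = 2 * g
  F_semilinear : IsSemilinear (frob (p := p) (k := k)) F
  V_add : ∀ x y, V (x + y) = V x + V y
  V_smul : ∀ (a : WittVector p k) x, V (frob a • x) = a • V x
  F_V : ∀ x, F (V x) = (p : WittVector p k) • x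
  V_F : ∀ x, V (F x) = (p : WittVector p k) • x
  isAltForm : IsAltForm ψ
  adjoint : ∀ x y, ψ (F x) y = frob (ψ x (V y))

variable (p k) in
/-- All slopes of `F` are `1 / 2`: with `k` algebraically closed, `r / s` is a slope of the Newton
polygon exactly when there is a nonzero `x` in `M` with `F ^ s x = p ^ r x`. -/
def IsSupersingular (F : M → M) : Prop :=
  ∀ (r s : ℕ) (x : M), 0 < s → x ≠ 0 → F^[s] x = (p : WittVector p k) ^ r • x → 2 * r = s

end Statement

/-! ## The theorem -/

/-- Let `A` be a non-supersingular abelian variety of dimension `g ≥ 2` over the algebraically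
closed field `k` of characteristic `p`, with Dieudonné module `M`. The F-crystal
`L = H²_cris(A / W)` is the exterior square of `M` with its Frobenius `FL` (which exists and is
unique), and `p ^ (g - 2)` kills the group of `k`-points of `U_A = U_L`. -/
theorem result (p : ℕ) [Fact p.Prime] (k : Type u) [Field k] [IsAlgClosed k] [CharP k p]
    (g : ℕ) (hg : 2 ≤ g) (M : Type v) [AddCommGroup M] [Module (WittVector p k) M]
    (F V : M → M) (ψ : M → M → WittVector p k)
    (hM : IsPolarisedDieudonneModule g F V ψ) (hns : ¬ IsSupersingular p k F) :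
    (∃! FL : ExtSq (WittVector p k) M → ExtSq (WittVector p k) M, IsWedgeSquare frob F FL) ∧
      ∀ FL : ExtSq (WittVector p k) M → ExtSq (WittVector p k) M, IsWedgeSquare frob F FL →
        KillsU (WittVector p k) p FL (p ^ (g - 2)) := by
  -- the data in Mathlib's language
  let F' : M →ₛₗ[MPd27f8c.frob p k] M :=
    { toFun := F, map_add' := hM.F_semilinear.map_add, map_smul' := hM.F_semilinear.map_smul }
  let V' : M →ₛₗ[MPd27f8c.frobInv p k] M :=
    { toFun := V
      map_add' := hM.V_add
      map_smul' := fun a x => by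
        have h1 : frob (MPd27f8c.frobInv p k a) = a :=
          (WittVector.frobeniusEquiv p k).apply_symm_apply a
        have h2 := hM.V_smul (MPd27f8c.frobInv p k a) x
        rwa [h1] at h2 }
  let ψ' : M →ₗ[WittVector p k] M →ₗ[WittVector p k] WittVector p k :=
    LinearMap.mk₂ _ ψ hM.isAltForm.add_left hM.isAltForm.smul_left hM.isAltForm.add_right
      hM.isAltForm.smul_right
  have hM' : MPd27f8c.IsPolarisedDieudonneModule g F' V' ψ' :=
    { free := hM.free
      finite := hM.finite
      finrank_eq := hM.finrank_eq
      isFVPair := ⟨hM.F_V, hM.V_F⟩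
      isAltForm := ⟨hM.isAltForm.self_eq_zero, hM.isAltForm.nondegenerate⟩
      isAdjoint := hM.adjoint }
  have hns' : ¬ MPd27f8c.IsSupersingular F' := by
    intro h
    apply hns
    intro r s x hs hx hF
    exact h r s ⟨hs, x, hx, hF⟩
  have hkill := MPd27f8c.semi_result p k g hg M F' V' ψ' hM' hns'
  have hfree := hM.free
  -- elementwise form of the conclusion
  have helt : ∀ z : MPd27f8c.ExtSq (WittVector p k) M,
      ∃ x y, MPd27f8c.wedgeSq F' x = (p : WittVector p k) • y ∧ p ^ (g - 2) • z = y - x := by
    intro z
    have h1 := hkill (QuotientAddGroup.mk z)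
    rw [← QuotientAddGroup.mk_nsmul] at h1
    exact (QuotientAddGroup.eq_zero_iff _).1 h1
  have hwedge : IsWedgeSquare frob F
      (MPd27f8c.wedgeSq F' : ExtSq (WittVector p k) M → ExtSq (WittVector p k) M) :=
    { semilinear := ⟨(MPd27f8c.wedgeSq F').map_add, (MPd27f8c.wedgeSq F').map_smulₛₗ⟩
      map_wdg := MPd27f8c.wedgeSq_wdg F' }
  have huniq : ∀ FL : ExtSq (WittVector p k) M → ExtSq (WittVector p k) M,
      IsWedgeSquare frob F FL →
      FL = (MPd27f8c.wedgeSq F' : ExtSq (WittVector p k) M → ExtSq (WittVector p k) M) := by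
    intro FL hFL
    funext z
    refine MPd27f8c.wedge_induction (R := WittVector p k) (M := M)
      (P := fun z => FL z = MPd27f8c.wedgeSq F' z) ?_ ?_ ?_ z
    · have h1 := hFL.semilinear.map_add 0 0
      rw [add_zero] at h1
      have h2 : FL 0 = 0 := left_eq_add.1 h1
      exact h2.trans (map_zero (MPd27f8c.wedgeSq F')).symm
    · intro x y hx hy
      have h1 := hFL.semilinear.map_add x y
      have h2 : FL (x + y) = MPd27f8c.wedgeSq F' x + MPd27f8c.wedgeSq F' y := by
        rw [← hx, ← hy]; exact h1
      exact h2.trans (map_add (MPd27f8c.wedgeSq F') x y).symm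
    · intro x y
      exact (hFL.map_wdg x y).trans (MPd27f8c.wedgeSq_wdg F' x y).symm
  refine ⟨⟨_, hwedge, huniq⟩, ?_⟩
  intro FL hFL u
  have hFLe := huniq FL hFL
  subst hFLe
  obtain ⟨z, rfl⟩ := QuotientAddGroup.mk_surjective u
  obtain ⟨x, y, h1, h2⟩ := helt z
  rw [← QuotientAddGroup.mk_nsmul]
  refine (QuotientAddGroup.eq_zero_iff _).2 ?_
  exact AddSubgroup.subset_closure ⟨x, y, h1, h2⟩

end Pool.Agent.Results.MP_d27f8c_ag.PExponent
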